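import Pool.Agent.TH76.LehP.Leh

set_option autoImplicit false

namespace Pool.Agent.Results.MP_b50d59_nt.SmallestPrimeFactor

open Pool.Agent.TH76.LehP Pool.Agent.H95R2.Leh

/-- There are absolute `δ, c > 0` such that every composite `n > 4` with `φ(n) ∣ n - a(n)`, with least
prime factor `p` and `k = n / φ(n)`, has at least `c p ^ max((1 + δ) k, exp(δ k))` distinct prime
factors. -/
theorem result : ∃ δ c : ℝ, 0 < δ ∧ 0 < c ∧ ∀ n : ℕ, 4 < n → ¬ n.Prime →
    n.totient ∣ n - Nca8c8b9b.a n →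
    c * (n.minFac : ℝ) ^ (max ((1 + δ) * ((n : ℝ) / (n.totient : ℝ)))
      (Real.exp (δ * ((n : ℝ) / (n.totient : ℝ))))) ≤ (n.primeFactors.card : ℝ) := by
  obtain ⟨δ, c, hδ, hc, h⟩ := unified
  refine ⟨δ, c, hδ, hc, fun n h4 hcn hd => ?_⟩
  obtain ⟨h1, h2, h3, _⟩ := leh_props (leh_of_congr h4 hcn hd)
  exact h n (by omega) h2 (by omega)

end Pool.Agent.Results.MP_b50d59_nt.SmallestPrimeFactor
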